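import Pool.Agent.Helper76.TC2.All

/-!
# Tori and intervals: the growth threshold

`ℤⁿ`-periodic metrics on `ℝⁿ` whose separated sets grow with exponent `N`: their tori can come arbitrarily close to an interval
if and only if `n ≥ 3` and `N ≥ n + 1`. If `n ≤ 2` or `N < n + 1`, bounded turning and packing up to one scale exclude it; if
`n ≥ 3` and `N ≥ n + 1`, there are geodesic examples with packing at all scales.
-/

set_option autoImplicit false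

open Set

namespace Pool.Agent.Results.MP_ccd65d_gt.GrowthThreshold

/-- The integer vector `k` as a real vector. -/
def rv {n : ℕ} (k : Fin n → ℤ) : Fin n → ℝ := fun i => (k i : ℝ)

/-- `d` is a `ℤⁿ`-periodic metric on `ℝⁿ`, bi-Lipschitz to the norm. -/
structure PeriodicMetric (n : ℕ) (d : (Fin n → ℝ) → (Fin n → ℝ) → ℝ) : Prop where
  symm : ∀ x y, d x y = d y x
  triangle : ∀ x y z, d x z ≤ d x y + d y z
  periodic : ∀ (k : Fin n → ℤ) (x y : Fin n → ℝ), d (rv k + x) (rv k + y) = d x y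
  bilip : ∃ c C : ℝ, 0 < c ∧ ∀ x y, c * ‖x - y‖ ≤ d x y ∧ d x y ≤ C * ‖x - y‖

/-- Bounded turning: any two points `x, y` are joined by a path on which the distance to `x` is at most `A d(x,y)`. -/
def Turning (n : ℕ) (A : ℝ) (d : (Fin n → ℝ) → (Fin n → ℝ) → ℝ) : Prop :=
  ∀ x y, JoinedIn {z | d x z ≤ A * d x y} x y

/-- Any two points are joined by a minimizing geodesic. -/
def Geodesic (n : ℕ) (d : (Fin n → ℝ) → (Fin n → ℝ) → ℝ) : Prop :=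
  ∀ x y, ∃ γ : ℝ → (Fin n → ℝ), γ 0 = x ∧ γ (d x y) = y ∧
    ∀ s ∈ Icc 0 (d x y), ∀ t ∈ Icc 0 (d x y), d (γ s) (γ t) = |s - t|

/-- Every `r`-separated set in a ball of radius `R`, `0 < r ≤ R ≤ R0`, has at most `C (R/r)^N` points. -/
def Pack (n : ℕ) (C N R0 : ℝ) (d : (Fin n → ℝ) → (Fin n → ℝ) → ℝ) : Prop :=
  ∀ (x : Fin n → ℝ) (r R : ℝ), 0 < r → r ≤ R → R ≤ R0 → ∀ F : Finset (Fin n → ℝ),
    (∀ y ∈ F, d x y ≤ R) → (∀ y ∈ F, ∀ z ∈ F, y ≠ z → r < d y z) → (F.card : ℝ) ≤ C * (R / r) ^ N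

/-- `T` is the torus `ℝⁿ/ℤⁿ` with the quotient metric of `d`. -/
structure IsTorus (n : ℕ) (d : (Fin n → ℝ) → (Fin n → ℝ) → ℝ) (T : Type) [MetricSpace T]
    (π : (Fin n → ℝ) → T) : Prop where
  surj : Function.Surjective π
  quot : ∀ x y, dist (π x) (π y) = ⨅ k : Fin n → ℤ, d x (rv k + y)

/-- The torus of `d` is at Gromov-Hausdorff distance less than `δ` from the interval `[0, l]`. -/
def Near (n : ℕ) (d : (Fin n → ℝ) → (Fin n → ℝ) → ℝ) (l δ : ℝ) : Prop :=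
  ∃ (T : Type) (_ : MetricSpace T) (_ : CompactSpace T) (_ : Nonempty T)
    (_ : Nonempty (Icc (0 : ℝ) l)) (π : (Fin n → ℝ) → T),
    IsTorus n d T π ∧ GromovHausdorff.ghDist T (Icc (0 : ℝ) l) < δ

/-- For some `A, C` and some `R0, l > 0`, tori of metrics of bounded turning `A` and of packing type `(C, N)` up to the scale
`R0` come arbitrarily close to `[0, l]`. -/
def Collapse (n : ℕ) (N : ℝ) : Prop := ∃ A C R0 l : ℝ, 0 < R0 ∧ 0 < l ∧ ∀ δ : ℝ, 0 < δ →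
  ∃ d : (Fin n → ℝ) → (Fin n → ℝ) → ℝ,
    PeriodicMetric n d ∧ Turning n A d ∧ Pack n C N R0 d ∧ Near n d l δ

/-- For some `C` and all `l > 0`, tori of geodesic metrics of packing type `(C, N)` at all scales come arbitrarily close to
`[0, l]`. -/
def StrongCollapse (n : ℕ) (N : ℝ) : Prop := ∃ C : ℝ, ∀ l δ : ℝ, 0 < l → 0 < δ →
  ∃ d : (Fin n → ℝ) → (Fin n → ℝ) → ℝ,
    PeriodicMetric n d ∧ Geodesic n d ∧ (∀ R0 : ℝ, Pack n C N R0 d) ∧ Near n d l δ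

/-- `Collapse`, `StrongCollapse` and `n ≥ 3 ∧ N ≥ n + 1` are equivalent. -/
theorem result (n : ℕ) (N : ℝ) :
    (Collapse n N ↔ 3 ≤ n ∧ (n : ℝ) + 1 ≤ N) ∧ (StrongCollapse n N ↔ 3 ≤ n ∧ (n : ℝ) + 1 ≤ N) := by
  have h0 : ∀ d : (Fin n → ℝ) → (Fin n → ℝ) → ℝ,
      PeriodicMetric n d ↔ Helper76.TC2.Base n d := fun d =>
    ⟨fun h => ⟨h.symm, h.triangle, h.periodic, h.bilip⟩,
      fun h => ⟨h.symm, h.triangle, h.periodic, h.bilip⟩⟩
  have h1 : ∀ (A : ℝ) (d : (Fin n → ℝ) → (Fin n → ℝ) → ℝ),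
      (PeriodicMetric n d ∧ Turning n A d) ↔ Helper76.TC.TorusMetric n A d := fun A d =>
    ⟨fun h => ⟨h.1.symm, h.1.triangle, h.1.periodic, h.1.bilip, h.2⟩,
      fun h => ⟨⟨h.symm, h.triangle, h.periodic, h.bilip⟩, h.turn⟩⟩
  have h2 : ∀ (d : (Fin n → ℝ) → (Fin n → ℝ) → ℝ) (l δ : ℝ),
      Near n d l δ ↔ Helper76.TC.Near n d l δ := by
    intro d l δ
    constructor
    · rintro ⟨T, i1, i2, i3, i4, π, h, h'⟩
      exact ⟨T, i1, i2, i3, i4, π, ⟨h.surj, h.quot⟩, h'⟩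
    · rintro ⟨T, i1, i2, i3, i4, π, h, h'⟩
      exact ⟨T, i1, i2, i3, i4, π, ⟨h.surj, h.quot⟩, h'⟩
  have hW : Collapse n N ↔ Helper76.TC2.Weak n N := by
    constructor
    · rintro ⟨A, C, R0, l, hR, hl, H⟩
      refine ⟨A, C, R0, l, hR, hl, fun δ hδ => ?_⟩
      obtain ⟨d, e0, e1, e2, e3⟩ := H δ hδ
      exact ⟨d, (h1 A d).1 ⟨e0, e1⟩, e2, (h2 d l δ).1 e3⟩
    · rintro ⟨A, C, R0, l, hR, hl, H⟩
      refine ⟨A, C, R0, l, hR, hl, fun δ hδ => ?_⟩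
      obtain ⟨d, e1, e2, e3⟩ := H δ hδ
      exact ⟨d, ((h1 A d).2 e1).1, ((h1 A d).2 e1).2, e2, (h2 d l δ).2 e3⟩
  have hS : StrongCollapse n N ↔ Helper76.TC2.Strong n N := by
    constructor
    · rintro ⟨C, H⟩
      refine ⟨C, fun l δ hl hδ => ?_⟩
      obtain ⟨d, e0, e1, e2, e3⟩ := H l δ hl hδ
      exact ⟨d, (h0 d).1 e0, e1, e2, (h2 d l δ).1 e3⟩
    · rintro ⟨C, H⟩
      refine ⟨C, fun l δ hl hδ => ?_⟩
      obtain ⟨d, e0, e1, e2, e3⟩ := H l δ hl hδ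
      exact ⟨d, (h0 d).2 e0, e1, e2, (h2 d l δ).2 e3⟩
  rw [hW, hS]
  exact Helper76.TC2.final n N

end Pool.Agent.Results.MP_ccd65d_gt.GrowthThreshold
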