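import Pool.Agent.Helper50.CT.Final

/-!
# Tori are far from intervals: an explicit inequality

For every metric on the torus `Tⁿ` with curvature `≥ -κ²` and every `l > 0`,
`d_GH(Tⁿ, [0, l]) ≥ min(l, 1/κ)/(2000 (600 n)ⁿ)`.

The metric on `Tⁿ = ℝⁿ/ℤⁿ` is given by its lift `d` to `ℝⁿ` (a periodic metric), and the curvature bound is
the four-point comparison of Alexandrov for `d`.  For a Riemannian metric on `Tⁿ` with sectional
curvature `≥ -κ²` the lifted distance has these properties (Hopf-Rinow, Toponogov).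
-/

set_option autoImplicit false

open Set Filter Topology

namespace Pool.Agent.Results.MP_ccd65d_gt.QuantitativeNonCollapse

/-- The comparison angle: the angle between the sides `a` and `b` of the triangle with sides `a, b, c`
in the hyperbolic plane of curvature `-κ²`. -/
noncomputable def ang (κ a b c : ℝ) : ℝ :=
  Real.arccos ((Real.cosh (κ * a) * Real.cosh (κ * b) - Real.cosh (κ * c)) /
    (Real.sinh (κ * a) * Real.sinh (κ * b)))

/-- The integer vector `k` as a real vector. -/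
def rv {n : ℕ} (k : Fin n → ℤ) : Fin n → ℝ := fun i => (k i : ℝ)

/-- `d` is a `ℤⁿ`-periodic metric on `ℝⁿ`, bi-Lipschitz equivalent to the norm, geodesic (any two points
are joined by a shortest path), with curvature `≥ -κ²` in the sense of Alexandrov (the sum of the three
comparison angles at `p` is at most `2π`).  If `g` is a Riemannian metric on `Tⁿ = ℝⁿ/ℤⁿ` with sectional
curvature `≥ -κ²`, the distance of its lift to `ℝⁿ` has these properties. -/
structure TorusMetric (n : ℕ) (κ : ℝ) (d : (Fin n → ℝ) → (Fin n → ℝ) → ℝ) : Prop where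
  symm : ∀ x y, d x y = d y x
  triangle : ∀ x y z, d x z ≤ d x y + d y z
  periodic : ∀ (k : Fin n → ℤ) (x y : Fin n → ℝ), d (rv k + x) (rv k + y) = d x y
  bilip : ∃ c C : ℝ, 0 < c ∧ ∀ x y, c * ‖x - y‖ ≤ d x y ∧ d x y ≤ C * ‖x - y‖
  geod : ∀ x y, ∃ c : ℝ → (Fin n → ℝ), c 0 = x ∧ c (d x y) = y ∧
    ∀ s ∈ Icc 0 (d x y), ∀ t ∈ Icc 0 (d x y), d (c s) (c t) = |s - t|
  curv : ∀ p x y z : Fin n → ℝ, x ≠ p → y ≠ p → z ≠ p →
    ang κ (d p x) (d p y) (d x y) + ang κ (d p y) (d p z) (d y z)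
      + ang κ (d p z) (d p x) (d z x) ≤ 2 * Real.pi

/-- `T` is the torus `ℝⁿ/ℤⁿ` with the quotient metric of `d`. -/
structure IsTorus (n : ℕ) (d : (Fin n → ℝ) → (Fin n → ℝ) → ℝ) (T : Type) [MetricSpace T]
    (π : (Fin n → ℝ) → T) : Prop where
  surj : Function.Surjective π
  quot : ∀ x y, dist (π x) (π y) = ⨅ k : Fin n → ℤ, d x (rv k + y)

/-- (1) For every metric on the torus `Tⁿ`, `n ≥ 1`, with curvature `≥ -κ²`, `κ > 0`, and every `l > 0`, the
Gromov-Hausdorff distance to `[0, l]` is at least `min(l, 1/κ)/(2000 (600 n)ⁿ)`.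
(2) For given `n`, `κ`, `l`, no sequence of such metrics converges to `[0, l]`. -/
theorem result :
    (∀ (n : ℕ) (κ l : ℝ) (d : (Fin n → ℝ) → (Fin n → ℝ) → ℝ) (T : Type) [MetricSpace T]
      [CompactSpace T] [Nonempty T] [Nonempty (Icc (0 : ℝ) l)] (π : (Fin n → ℝ) → T),
      1 ≤ n → 0 < κ → 0 < l → TorusMetric n κ d → IsTorus n d T π →
      min l (1 / κ) / (2000 * (600 * (n : ℝ)) ^ n)
        ≤ GromovHausdorff.ghDist T (Icc (0 : ℝ) l)) ∧
    (∀ (n : ℕ) (κ l : ℝ) (d : ℕ → (Fin n → ℝ) → (Fin n → ℝ) → ℝ) (T : ℕ → Type)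
      [∀ i, MetricSpace (T i)] [∀ i, CompactSpace (T i)] [∀ i, Nonempty (T i)]
      [Nonempty (Icc (0 : ℝ) l)] (π : ∀ i, (Fin n → ℝ) → T i),
      1 ≤ n → 0 < κ → 0 < l → (∀ i, TorusMetric n κ (d i)) →
      (∀ i, IsTorus n (d i) (T i) (π i)) →
      ¬ Tendsto (fun i => GromovHausdorff.ghDist (T i) (Icc (0 : ℝ) l)) atTop (𝓝 0)) := by
  have hd : ∀ (n : ℕ) (κ : ℝ) (d : (Fin n → ℝ) → (Fin n → ℝ) → ℝ), TorusMetric n κ d →
      Helper50.CT.TorusMetric n κ d := fun n κ d h =>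
    ⟨h.symm, h.triangle, h.periodic, h.bilip, h.geod, h.curv⟩
  have hq : ∀ (n : ℕ) (d : (Fin n → ℝ) → (Fin n → ℝ) → ℝ) (T : Type) [MetricSpace T]
      (π : (Fin n → ℝ) → T), IsTorus n d T π → Helper50.CT.IsTorus n d T π :=
    fun n d T _ π h => ⟨h.surj, h.quot⟩
  refine ⟨?_, ?_⟩
  · intro n κ l d T _ _ _ _ π h1 h2 h3 h4 h5
    exact Helper50.CT.torus_final n κ l d T π h1 h2 h3 (hd n κ d h4) (hq n d T π h5)
  · intro n κ l d T _ _ _ _ π h1 h2 h3 h4 h5
    exact Helper50.CT.no_seq Helper50.CT.torus_final n κ l d T π h1 h2 h3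
      (fun i => hd n κ (d i) (h4 i)) (fun i => hq n (d i) (T i) (π i) (h5 i))

end Pool.Agent.Results.MP_ccd65d_gt.QuantitativeNonCollapse
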